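import Pool.Agent.FTU.Stmts

/-!
# Squad FTU, row BMP

Problem MP_8cfbae_mp.  The cutoff function exists.
-/

set_option autoImplicit false

namespace Pool.Agent.FTU.H26

open Pool.Agent.Helper49_Pauli Pool.Agent.MBX Pool.Agent.FTU

/-- a one dimensional bump function -/
noncomputable def f1 : ContDiffBump (0 : ℝ) := ⟨1 / 2, 1, by norm_num, by norm_num⟩

theorem f1_one {x : ℝ} (h : |x| ≤ 1 / 2) : f1 x = 1 := by
  refine f1.one_of_mem_closedBall ?_
  rw [Metric.mem_closedBall, Real.dist_eq, sub_zero]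
  exact h

theorem f1_zero {x : ℝ} (h : 1 ≤ |x|) : f1 x = 0 := by
  refine f1.zero_of_le_dist ?_
  rw [Real.dist_eq, sub_zero]
  exact h

/-- the product of three bump functions -/
noncomputable def bp (x : X3) : ℝ := f1 (x 0) * (f1 (x 1) * f1 (x 2))

theorem bp_zero {x : X3} (h : ∃ j, 1 ≤ |x j|) : bp x = 0 := by
  obtain ⟨j, hj⟩ := h
  unfold bp
  have h3 : j = 0 ∨ j = 1 ∨ j = 2 := by
    fin_cases j <;> simp
  rcases h3 with rfl | rfl | rfl
  · rw [f1_zero hj, zero_mul]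
  · rw [f1_zero hj, zero_mul, mul_zero]
  · rw [f1_zero hj, mul_zero, mul_zero]

theorem bp_smooth : ContDiff ℝ (⊤ : ℕ∞) bp := by
  have h : ∀ j : Fin 3, ContDiff ℝ (⊤ : ℕ∞) (fun x : X3 => f1 (x j)) := fun j =>
    f1.contDiff.comp (contDiff_apply ℝ ℝ j)
  exact (h 0).mul ((h 1).mul (h 2))

theorem bp_cs : HasCompactSupport bp := by
  refine HasCompactSupport.intro (isCompact_closedBall (0 : X3) 1) fun x hx => ?_
  refine bp_zero ?_
  by_contra hc
  push Not at hc
  refine hx ?_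
  rw [mem_closedBall_zero_iff, pi_norm_le_iff_of_nonneg zero_le_one]
  intro j
  rw [Real.norm_eq_abs]
  exact (hc j).le

theorem bmp : BmpStmt := by
  have h1 : Continuous (fderiv ℝ bp) := bp_smooth.continuous_fderiv (by simp)
  obtain ⟨C, hC⟩ := h1.bounded_above_of_compact_support (bp_cs.fderiv ℝ)
  refine ⟨bp, C, bp_smooth, ?_, ?_, ?_, fun x h => bp_zero h, ?_⟩
  · intro x
    exact mul_nonneg f1.nonneg (mul_nonneg f1.nonneg f1.nonneg)
  · intro x
    exact mul_le_one₀ f1.le_one (mul_nonneg f1.nonneg f1.nonneg)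
      (mul_le_one₀ f1.le_one f1.nonneg f1.le_one)
  · intro x h
    unfold bp
    rw [f1_one (h 0), f1_one (h 1), f1_one (h 2)]
    norm_num
  · intro x j
    have h2 : ‖(Pi.single j 1 : X3)‖ ≤ 1 := by
      rw [Pi.norm_single, norm_one]
    calc |pd j bp x| = ‖fderiv ℝ bp x (Pi.single j 1)‖ := rfl
      _ ≤ ‖fderiv ℝ bp x‖ * ‖(Pi.single j 1 : X3)‖ := ContinuousLinearMap.le_opNorm _ _
      _ ≤ C * 1 := mul_le_mul (hC x) h2 (norm_nonneg _) (le_trans (norm_nonneg _) (hC x))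
      _ = C := mul_one C

end Pool.Agent.FTU.H26
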