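import Pool.Agent.FTU.Stmts

/-!
# Squad FTU, row PFD

Problem MP_8cfbae_mp.  The derivatives of the profiles.
-/

set_option autoImplicit false

namespace Pool.Agent.FTU.H26

open Pool.Agent.Helper49_Pauli Pool.Agent.MBX Pool.Agent.FTU

/-- the derivatives of `s ^ m` at `0` -/
noncomputable def E (m : ℕ) (j : ℕ) : ℝ := if j = m then (m.factorial : ℝ) else 0

theorem conv (m k j : ℕ) :
    ∑ i ∈ Finset.range (j + 1), (j.choose i : ℝ) * E m i * E k (j - i) = E (m + k) j := by
  by_cases h : j = m + k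
  · subst h
    rw [Finset.sum_eq_single m]
    · have h1 : m + k - m = k := by omega
      rw [h1]
      unfold E
      rw [if_pos rfl, if_pos rfl, if_pos rfl]
      have h2 := Nat.add_choose_mul_factorial_mul_factorial m k
      rw [← Nat.choose_symm_add] at h2
      exact_mod_cast h2
    · intro i _ hi
      unfold E
      rw [if_neg hi, mul_zero, zero_mul]
    · intro hm
      exfalso
      apply hm
      rw [Finset.mem_range]
      omega
  · have h2 : E (m + k) j = 0 := by
      unfold E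
      rw [if_neg h]
    rw [h2]
    refine Finset.sum_eq_zero fun i hi => ?_
    rw [Finset.mem_range] at hi
    unfold E
    by_cases h3 : i = m
    · have h4 : ¬ (j - i = k) := by omega
      rw [if_neg h4, mul_zero]
    · rw [if_neg h3, mul_zero, zero_mul]

/-- the derivatives of order `j` are `a j`, up to `C / W²`, `W = ell / (2M+1)`, and bounded -/
def Cl (S : Set ℝ) (g : ℝ → ℕ → ℝ → ℝ) (a : ℕ → ℝ) : Prop :=
  (∀ ell M, ContDiff ℝ (⊤ : ℕ∞) (g ell M)) ∧
  ∀ j : ℕ, ∃ C : ℝ, 0 ≤ C ∧ ∀ (ell : ℝ) (M : ℕ), 0 < ell → 1 ≤ ell / (2 * M + 1) → ∀ z ∈ S,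
    |iteratedDeriv j (g ell M) z - a j| ≤ C * ((1 + |z|) ^ 2 / (ell / (2 * M + 1)) ^ 2) ∧
    |iteratedDeriv j (g ell M) z| ≤ C

theorem cl_mul {S : Set ℝ} {g h : ℝ → ℕ → ℝ → ℝ} {a b : ℕ → ℝ} (Hg : Cl S g a) (Hh : Cl S h b) :
    Cl S (fun ell M s => g ell M s * h ell M s)
      (fun j => ∑ i ∈ Finset.range (j + 1), (j.choose i : ℝ) * a i * b (j - i)) := by
  refine ⟨fun ell M => (Hg.1 ell M).mul (Hh.1 ell M), fun j => ?_⟩
  choose Cg hCg0 hCg using Hg.2
  choose Ch hCh0 hCh using Hh.2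
  have hn : ∀ i, 0 ≤ (j.choose i : ℝ) * ((Cg i + |a i|) * Ch (j - i)) := fun i =>
    mul_nonneg (Nat.cast_nonneg _) (mul_nonneg (add_nonneg (hCg0 i) (abs_nonneg _)) (hCh0 _))
  refine ⟨∑ i ∈ Finset.range (j + 1), (j.choose i : ℝ) * ((Cg i + |a i|) * Ch (j - i)),
    Finset.sum_nonneg fun i _ => hn i, ?_⟩
  intro ell M h1 h2 z hz
  have hg' : ContDiffAt ℝ j (g ell M) z :=
    ((Hg.1 ell M).contDiffAt).of_le (by exact_mod_cast le_top)
  have hh' : ContDiffAt ℝ j (h ell M) z :=
    ((Hh.1 ell M).contDiffAt).of_le (by exact_mod_cast le_top)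
  have e : iteratedDeriv j (fun s => g ell M s * h ell M s) z =
      ∑ i ∈ Finset.range (j + 1), (j.choose i : ℝ) * iteratedDeriv i (g ell M) z *
        iteratedDeriv (j - i) (h ell M) z := iteratedDeriv_mul hg' hh'
  rw [e]
  set w : ℝ := (1 + |z|) ^ 2 / (ell / (2 * M + 1)) ^ 2 with hw
  have hw0 : 0 ≤ w := by positivity
  constructor
  · rw [← Finset.sum_sub_distrib, Finset.sum_mul]
    refine le_trans (Finset.abs_sum_le_sum_abs _ _) (Finset.sum_le_sum fun i _ => ?_)
    have h3 := (hCg i ell M h1 h2 z hz).1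
    have h4 := (hCh (j - i) ell M h1 h2 z hz).1
    have h5 := (hCh (j - i) ell M h1 h2 z hz).2
    have h6 : (j.choose i : ℝ) * iteratedDeriv i (g ell M) z * iteratedDeriv (j - i) (h ell M) z -
        (j.choose i : ℝ) * a i * b (j - i) = (j.choose i : ℝ) *
        ((iteratedDeriv i (g ell M) z - a i) * iteratedDeriv (j - i) (h ell M) z +
          a i * (iteratedDeriv (j - i) (h ell M) z - b (j - i))) := by ring
    rw [h6, abs_mul, Nat.abs_cast, mul_assoc]
    refine mul_le_mul_of_nonneg_left ?_ (Nat.cast_nonneg _)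
    calc |(iteratedDeriv i (g ell M) z - a i) * iteratedDeriv (j - i) (h ell M) z +
          a i * (iteratedDeriv (j - i) (h ell M) z - b (j - i))|
        ≤ |iteratedDeriv i (g ell M) z - a i| * |iteratedDeriv (j - i) (h ell M) z| +
          |a i| * |iteratedDeriv (j - i) (h ell M) z - b (j - i)| := by
          rw [← abs_mul, ← abs_mul]
          exact abs_add_le _ _
      _ ≤ (Cg i * w) * Ch (j - i) + |a i| * (Ch (j - i) * w) :=
          add_le_add (mul_le_mul h3 h5 (abs_nonneg _) (mul_nonneg (hCg0 i) hw0))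
            (mul_le_mul_of_nonneg_left h4 (abs_nonneg _))
      _ = (Cg i + |a i|) * Ch (j - i) * w := by ring
  · refine le_trans (Finset.abs_sum_le_sum_abs _ _) (Finset.sum_le_sum fun i _ => ?_)
    have h3 := (hCg i ell M h1 h2 z hz).2
    have h5 := (hCh (j - i) ell M h1 h2 z hz).2
    rw [abs_mul, abs_mul, Nat.abs_cast, mul_assoc]
    refine mul_le_mul_of_nonneg_left ?_ (Nat.cast_nonneg _)
    refine mul_le_mul (le_trans h3 (le_add_of_nonneg_right (abs_nonneg _))) h5 (abs_nonneg _)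
      (add_nonneg (hCg0 i) (abs_nonneg _))

theorem cl_mul' {S : Set ℝ} {g h : ℝ → ℕ → ℝ → ℝ} {m k : ℕ} (Hg : Cl S g (E m))
    (Hh : Cl S h (E k)) : Cl S (fun ell M s => g ell M s * h ell M s) (E (m + k)) := by
  have h1 := cl_mul Hg Hh
  have h2 : (fun j => ∑ i ∈ Finset.range (j + 1), (j.choose i : ℝ) * E m i * E k (j - i)) =
      E (m + k) := funext fun j => conv m k j
  rw [h2] at h1
  exact h1

theorem cl_one (S : Set ℝ) : Cl S (fun _ _ _ => 1) (E 0) := by
  refine ⟨fun _ _ => contDiff_const, fun j => ⟨1, zero_le_one, fun ell M h1 h2 z _ => ?_⟩⟩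
  have h3 : iteratedDeriv j (fun _ : ℝ => (1 : ℝ)) z = E 0 j := by
    unfold E
    rw [iteratedDeriv_const]
    split_ifs <;> simp
  rw [h3, sub_self, abs_zero]
  refine ⟨by positivity, ?_⟩
  unfold E
  split_ifs <;> simp

theorem cl_pow {S : Set ℝ} {g : ℝ → ℕ → ℝ → ℝ} {m : ℕ} (Hg : Cl S g (E m)) (r : ℕ) :
    Cl S (fun ell M s => g ell M s ^ r) (E (m * r)) := by
  induction r with
  | zero =>
    have h1 := cl_one S
    simp only [pow_zero, Nat.mul_zero]
    exact h1
  | succ r ih =>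
    have h1 := cl_mul' ih Hg
    simp only [pow_succ]
    exact h1

theorem avg (M : ℕ) (f : ℤ → ℝ) (c B : ℝ) (h : ∀ n ∈ Finset.Icc (-(M : ℤ)) M, |f n - c| ≤ B) :
    |(∑ n ∈ Finset.Icc (-(M : ℤ)) M, f n) / (2 * M + 1) - c| ≤ B := by
  have hp : (0 : ℝ) < 2 * M + 1 := by positivity
  have hc : ((Finset.Icc (-(M : ℤ)) M).card : ℝ) = 2 * M + 1 := by
    rw [Int.card_Icc]
    have : ((M : ℤ) + 1 - -(M : ℤ)).toNat = 2 * M + 1 := by omega
    rw [this]
    push_cast
    ring
  have h1 : (∑ n ∈ Finset.Icc (-(M : ℤ)) M, f n) / (2 * M + 1) - c =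
      (∑ n ∈ Finset.Icc (-(M : ℤ)) M, (f n - c)) / (2 * M + 1) := by
    rw [Finset.sum_sub_distrib, Finset.sum_const, nsmul_eq_mul, hc]
    field_simp
  rw [h1, abs_div, abs_of_pos hp, div_le_iff₀ hp]
  refine le_trans (Finset.abs_sum_le_sum_abs _ _) (le_trans (Finset.sum_le_sum h) ?_)
  rw [Finset.sum_const, nsmul_eq_mul, hc, mul_comm]

theorem dk_smooth (ell : ℝ) (M : ℕ) : ContDiff ℝ (⊤ : ℕ∞) (dk ell M) := by
  unfold dk
  refine ContDiff.div_const (ContDiff.sum fun n _ => ?_) _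
  exact Real.contDiff_cos.comp (contDiff_const.mul contDiff_id)

theorem dk_der (ell : ℝ) (M j : ℕ) (z : ℝ) : iteratedDeriv j (dk ell M) z =
    (∑ n ∈ Finset.Icc (-(M : ℤ)) M, (2 * Real.pi / ell * n) ^ j *
      iteratedDeriv j Real.cos (2 * Real.pi / ell * n * z)) / (2 * M + 1) := by
  have h1 : iteratedDeriv j (dk ell M) z = iteratedDeriv j (fun s =>
      ∑ n ∈ Finset.Icc (-(M : ℤ)) M, Real.cos (2 * Real.pi / ell * n * s)) z / (2 * M + 1) :=
    iteratedDeriv_div_const (fun s =>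
      ∑ n ∈ Finset.Icc (-(M : ℤ)) M, Real.cos (2 * Real.pi / ell * n * s)) _
  rw [h1, iteratedDeriv_fun_sum fun n _ => ?_]
  · congr 1
    refine Finset.sum_congr rfl fun n _ => ?_
    rw [iteratedDeriv_comp_const_mul (Real.contDiff_cos)]
  · exact (Real.contDiff_cos.comp (contDiff_const.mul contDiff_id)).contDiffAt

theorem freq {ell : ℝ} {M : ℕ} (h1 : 0 < ell) {n : ℤ}
    (hn : n ∈ Finset.Icc (-(M : ℤ)) M) :
    |2 * Real.pi / ell * n| ≤ Real.pi / (ell / (2 * M + 1)) := by
  rw [Finset.mem_Icc] at hn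
  have h2 : |(n : ℝ)| ≤ M := by
    rw [abs_le]
    constructor
    · exact_mod_cast hn.1
    · exact_mod_cast hn.2
  have hpi := Real.pi_pos
  rw [abs_mul, abs_of_pos (by positivity : 0 < 2 * Real.pi / ell)]
  have h3 : Real.pi / (ell / (2 * M + 1)) = Real.pi / ell * (2 * M + 1) := by
    field_simp
  rw [h3]
  calc 2 * Real.pi / ell * |(n : ℝ)| ≤ 2 * Real.pi / ell * M :=
        mul_le_mul_of_nonneg_left h2 (by positivity)
    _ = Real.pi / ell * (2 * M) := by ring
    _ ≤ Real.pi / ell * (2 * M + 1) := mul_le_mul_of_nonneg_left (by linarith) (by positivity)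

theorem cl_dk : Cl Set.univ dk (E 0) := by
  refine ⟨dk_smooth, fun j => ⟨Real.pi ^ (j + 2), by positivity, ?_⟩⟩
  intro ell M h1 h2 z _
  have hpi := Real.pi_pos
  have hpi1 : 1 ≤ Real.pi := by linarith [Real.pi_gt_three]
  rw [dk_der]
  set W : ℝ := ell / (2 * M + 1) with hW
  have hW0 : 0 < W := lt_of_lt_of_le one_pos h2
  have hz : 0 ≤ |z| := abs_nonneg z
  have hf : ∀ n ∈ Finset.Icc (-(M : ℤ)) M, |2 * Real.pi / ell * n| ≤ Real.pi / W :=
    fun n hn => freq h1 hn
  have hW2 : Real.pi / W ≤ Real.pi := div_le_self hpi.le h2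
  constructor
  · refine avg M _ _ _ fun n hn => ?_
    have hω := hf n hn
    set ω : ℝ := 2 * Real.pi / ell * n with hωdef
    have hsq : |ω| ^ 2 ≤ Real.pi ^ 2 / W ^ 2 := by
      rw [← div_pow]
      exact pow_le_pow_left₀ (abs_nonneg _) hω 2
    have hgoal2 : ∀ x : ℝ, x ≤ Real.pi ^ 2 * ((1 + |z|) ^ 2 / W ^ 2) →
        x ≤ Real.pi ^ (j + 2) * ((1 + |z|) ^ 2 / W ^ 2) := by
      intro x hx
      refine le_trans hx (mul_le_mul_of_nonneg_right ?_ (by positivity))
      exact pow_le_pow_right₀ hpi1 (by omega)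
    match j with
    | 0 =>
      refine hgoal2 _ ?_
      have h3 : E 0 0 = 1 := by simp [E]
      rw [pow_zero, one_mul, iteratedDeriv_zero, h3, abs_sub_comm,
        abs_of_nonneg (by linarith [Real.cos_le_one (ω * z)])]
      have h4 := Real.one_sub_sq_div_two_le_cos (x := ω * z)
      calc 1 - Real.cos (ω * z) ≤ (ω * z) ^ 2 / 2 := by linarith
        _ ≤ |ω| ^ 2 * |z| ^ 2 := by
          rw [sq_abs, sq_abs, mul_pow]
          nlinarith [sq_nonneg ω, sq_nonneg z, mul_nonneg (sq_nonneg ω) (sq_nonneg z)]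
        _ ≤ Real.pi ^ 2 / W ^ 2 * (1 + |z|) ^ 2 :=
          mul_le_mul hsq (pow_le_pow_left₀ hz (by linarith) 2) (by positivity) (by positivity)
        _ = Real.pi ^ 2 * ((1 + |z|) ^ 2 / W ^ 2) := by ring
    | 1 =>
      refine hgoal2 _ ?_
      have h3 : E 0 1 = 0 := by simp [E]
      have h4 : iteratedDeriv 1 Real.cos (ω * z) = - Real.sin (ω * z) := by
        rw [iteratedDeriv_one, Real.deriv_cos]
      rw [h3, sub_zero, pow_one, h4, abs_mul, abs_neg]
      calc |ω| * |Real.sin (ω * z)| ≤ |ω| * |ω * z| :=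
            mul_le_mul_of_nonneg_left Real.abs_sin_le_abs (abs_nonneg _)
        _ = |ω| ^ 2 * |z| := by rw [abs_mul ω z]; ring
        _ ≤ Real.pi ^ 2 / W ^ 2 * (1 + |z|) ^ 2 :=
          mul_le_mul hsq (by nlinarith) hz (by positivity)
        _ = Real.pi ^ 2 * ((1 + |z|) ^ 2 / W ^ 2) := by ring
    | j + 2 =>
      have h3 : E 0 (j + 2) = 0 := by simp [E]
      rw [h3, sub_zero, abs_mul, abs_pow]
      calc |ω| ^ (j + 2) * |iteratedDeriv (j + 2) Real.cos (ω * z)| ≤ |ω| ^ (j + 2) * 1 :=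
            mul_le_mul_of_nonneg_left (Real.abs_iteratedDeriv_cos_le_one _ _) (by positivity)
        _ = |ω| ^ j * |ω| ^ 2 := by rw [mul_one, pow_add]
        _ ≤ Real.pi ^ j * (Real.pi ^ 2 / W ^ 2) :=
          mul_le_mul (pow_le_pow_left₀ (abs_nonneg _) (le_trans hω hW2) j) hsq (by positivity)
            (by positivity)
        _ = Real.pi ^ (j + 2) * (1 / W ^ 2) := by rw [pow_add]; ring
        _ ≤ Real.pi ^ (j + 2 + 2) * ((1 + |z|) ^ 2 / W ^ 2) := by
          refine mul_le_mul (pow_le_pow_right₀ hpi1 (by omega)) ?_ (by positivity) (by positivity)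
          refine div_le_div_of_nonneg_right ?_ (by positivity)
          nlinarith
  · have h3 := avg M (fun n : ℤ => (2 * Real.pi / ell * n) ^ j *
      iteratedDeriv j Real.cos (2 * Real.pi / ell * n * z)) 0 (Real.pi ^ (j + 2)) ?_
    · rw [sub_zero] at h3
      exact h3
    · intro n hn
      have hω := hf n hn
      rw [sub_zero, abs_mul, abs_pow]
      calc |2 * Real.pi / ell * n| ^ j * |iteratedDeriv j Real.cos (2 * Real.pi / ell * n * z)|
          ≤ Real.pi ^ j * 1 := mul_le_mul (pow_le_pow_left₀ (abs_nonneg _) (le_trans hω hW2) j)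
            (Real.abs_iteratedDeriv_cos_le_one _ _) (abs_nonneg _) (by positivity)
        _ ≤ Real.pi ^ (j + 2) := by
          rw [mul_one]
          exact pow_le_pow_right₀ hpi1 (by omega)

theorem cl_ss : Cl {0} (fun ell _ s => ss ell s) (E 1) := by
  have hpi := Real.pi_pos
  have hpi1 : 1 ≤ 2 * Real.pi := by linarith [Real.pi_gt_three]
  refine ⟨fun ell _ => ?_, fun j => ⟨(2 * Real.pi) ^ j, by positivity, ?_⟩⟩
  · unfold ss
    exact contDiff_const.mul (Real.contDiff_sin.comp (contDiff_const.mul contDiff_id))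
  · intro ell M h1 h2 z hz
    rw [Set.mem_singleton_iff] at hz
    subst hz
    have hM : (1 : ℝ) ≤ 2 * M + 1 := by
      have : (0 : ℝ) ≤ M := Nat.cast_nonneg M
      linarith
    have hWl : ell / (2 * M + 1) ≤ ell := div_le_self h1.le hM
    have h3 : iteratedDeriv j (fun s => ss ell s) 0 =
        ell / (2 * Real.pi) * ((2 * Real.pi / ell) ^ j * iteratedDeriv j Real.sin 0) := by
      have h4 : iteratedDeriv j (fun s => ss ell s) 0 = ell / (2 * Real.pi) *
          iteratedDeriv j (fun s => Real.sin (2 * Real.pi / ell * s)) 0 :=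
        iteratedDeriv_const_mul_field _ _
      rw [h4, iteratedDeriv_comp_const_mul (Real.contDiff_sin)]
      beta_reduce
      rw [mul_zero (2 * Real.pi / ell)]
    have hz1 : (1 + |(0 : ℝ)|) ^ 2 = 1 := by simp
    beta_reduce
    rw [h3, hz1]
    set W : ℝ := ell / (2 * M + 1) with hW
    have hW0 : 0 < W := lt_of_lt_of_le one_pos h2
    match j with
    | 0 =>
      have h5 : E 1 0 = 0 := by simp [E]
      rw [h5, pow_zero, pow_zero, iteratedDeriv_zero, Real.sin_zero, mul_zero, mul_zero, sub_zero,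
        abs_zero]
      exact ⟨by positivity, zero_le_one⟩
    | 1 =>
      have h5 : E 1 1 = 1 := by simp [E]
      have h6 : iteratedDeriv 1 Real.sin 0 = 1 := by
        rw [iteratedDeriv_one, Real.deriv_sin, Real.cos_zero]
      have h7 : ell / (2 * Real.pi) * ((2 * Real.pi / ell) ^ 1 * 1) = 1 := by
        field_simp
      rw [h5, h6, h7, sub_self, abs_zero, abs_one, pow_one]
      exact ⟨by positivity, hpi1⟩
    | 2 =>
      have h5 : E 1 2 = 0 := by simp [E]
      have h6 : iteratedDeriv 2 Real.sin 0 = 0 := by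
        have := Real.iteratedDeriv_even_sin 1
        rw [mul_one] at this
        rw [this]
        simp
      rw [h5, h6, mul_zero, mul_zero, sub_zero, abs_zero]
      exact ⟨by positivity, by positivity⟩
    | j + 3 =>
      have h5 : E 1 (j + 3) = 0 := by simp [E]
      have h6 : |ell / (2 * Real.pi) * ((2 * Real.pi / ell) ^ (j + 3) *
          iteratedDeriv (j + 3) Real.sin 0)| ≤ (2 * Real.pi) ^ (j + 3) * (1 / W ^ 2) := by
        rw [abs_mul, abs_mul, abs_of_pos (by positivity : 0 < ell / (2 * Real.pi)),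
          abs_of_pos (by positivity : 0 < (2 * Real.pi / ell) ^ (j + 3))]
        have hl : 1 ≤ ell := le_trans h2 hWl
        calc ell / (2 * Real.pi) * ((2 * Real.pi / ell) ^ (j + 3) *
              |iteratedDeriv (j + 3) Real.sin 0|)
            ≤ ell / (2 * Real.pi) * ((2 * Real.pi / ell) ^ (j + 3) * 1) := by
              refine mul_le_mul_of_nonneg_left ?_ (by positivity)
              exact mul_le_mul_of_nonneg_left (Real.abs_iteratedDeriv_sin_le_one _ _)
                (by positivity)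
          _ = (2 * Real.pi) ^ (j + 2) * (1 / ell ^ (j + 2)) := by
              rw [mul_one, pow_succ, div_pow]
              field_simp
          _ ≤ (2 * Real.pi) ^ (j + 3) * (1 / W ^ 2) := by
              refine mul_le_mul (pow_le_pow_right₀ hpi1 (by omega)) ?_ (by positivity)
                (by positivity)
              refine one_div_le_one_div_of_le (by positivity) ?_
              calc W ^ 2 ≤ ell ^ 2 := pow_le_pow_left₀ hW0.le hWl 2
                _ ≤ ell ^ (j + 2) := pow_le_pow_right₀ hl (by omega)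
      rw [h5, sub_zero]
      refine ⟨h6, le_trans h6 ?_⟩
      have h7 : 1 / W ^ 2 ≤ 1 := by
        rw [div_le_one (by positivity)]
        exact one_le_pow₀ h2
      calc (2 * Real.pi) ^ (j + 3) * (1 / W ^ 2) ≤ (2 * Real.pi) ^ (j + 3) * 1 :=
            mul_le_mul_of_nonneg_left h7 (by positivity)
        _ = (2 * Real.pi) ^ (j + 3) := mul_one _

theorem cl_mono {S T : Set ℝ} (h : T ⊆ S) {g : ℝ → ℕ → ℝ → ℝ} {a : ℕ → ℝ} (H : Cl S g a) :
    Cl T g a :=
  ⟨H.1, fun j => by
    obtain ⟨C, h0, hC⟩ := H.2 j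
    exact ⟨C, h0, fun ell M h1 h2 z hz => hC ell M h1 h2 z (h hz)⟩⟩

theorem pfd (_ : DkpStmt) : PfdStmt := by
  intro j
  have hF : Cl Set.univ (fun ell M s => dk ell M s ^ 4) (E 0) := by
    have := cl_pow cl_dk 4
    rw [Nat.zero_mul] at this
    exact this
  have hP : ∀ m : ℕ, Cl {0} (fun ell M s => pf ell M m s) (E m) := by
    intro m
    have h1 := cl_pow cl_ss m
    rw [Nat.one_mul] at h1
    have h2 := cl_mul' h1 (cl_mono (Set.subset_univ {0}) hF)
    exact h2
  obtain ⟨C, hC0, hC⟩ := hF.2 j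
  have hQ : ∀ m : ℕ, ∃ C : ℝ, 0 ≤ C ∧ ∀ (ell : ℝ) (M : ℕ), 0 < ell → 1 ≤ ell / (2 * M + 1) →
      |iteratedDeriv j (pf ell M m) 0 - (if j = m then (m.factorial : ℝ) else 0)| ≤
        C / (ell / (2 * M + 1)) ^ 2 := by
    intro m
    obtain ⟨C', h0, h'⟩ := (hP m).2 j
    refine ⟨C', h0, fun ell M h1 h2 => ?_⟩
    have h3 := (h' ell M h1 h2 0 (Set.mem_singleton 0)).1
    have hz1 : (1 + |(0 : ℝ)|) ^ 2 = 1 := by simp
    rw [hz1, mul_one_div] at h3
    exact h3
  choose D hD0 hD using hQ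
  refine ⟨C + (D 0 + D 1 + D 2 + D 3), ?_, ?_⟩
  · have := hD0 0
    have := hD0 1
    have := hD0 2
    have := hD0 3
    linarith
  intro ell M h1 h2
  have hW0 : 0 < ell / (2 * M + 1) := lt_of_lt_of_le one_pos h2
  constructor
  · intro m hm
    refine le_trans (hD m ell M h1 h2) (div_le_div_of_nonneg_right ?_ (by positivity))
    have := hD0 0
    have := hD0 1
    have := hD0 2
    have := hD0 3
    have h5 : m = 0 ∨ m = 1 ∨ m = 2 ∨ m = 3 := by omega
    rcases h5 with rfl | rfl | rfl | rfl <;> linarith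
  · intro z
    have h3 := (hC ell M h1 h2 z (Set.mem_univ z)).1
    have h4 : (fun s => dk ell M s ^ 4) = pf ell M 0 := by
      funext s
      unfold pf
      rw [pow_zero, one_mul]
    have h5 : E 0 j = if j = 0 then 1 else 0 := by
      unfold E
      rw [Nat.factorial_zero, Nat.cast_one]
    beta_reduce at h3
    rw [h4, h5] at h3
    refine le_trans h3 ?_
    rw [mul_div_assoc]
    refine mul_le_mul_of_nonneg_right ?_ (by positivity)
    have := hD0 0
    have := hD0 1
    have := hD0 2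
    have := hD0 3
    linarith

end Pool.Agent.FTU.H26
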